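import Pool.Agent.Y775.W3.All
import Pool.Agent.Y775.W3.Exact
import Pool.Agent.TH358.BG.Main

/-!
# The complexes `Γ(X,n) ⊗ ℚ` of the open subsets `X` of `P^1` over finite fields

Let `X` be a nonempty open subset of `P^1_k`, `k` any algebraic extension of `F_p`, for instance a
finite field. Then `gr_n K_m(X)_ℚ = 0` for all `n ≥ 2` and all `m` (Harder, Quillen), so the
conjecture says that `Γ(X,n) ⊗ ℚ` is acyclic for `n ≥ 2`. We prove this for `n = 2` and `n = 3`, and
for all `n ≥ 2` in the degrees `1`, `n - 1`, `n` and `n + 1`.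

The starting result `OpenSubsetsProjectiveLine` treats only algebraically closed `k`. The new
input is `Y775.W3.span_poly`: for `F = k(x)` the elements `f ⊗ f ⊗ (1 - f)` span
`Sym²(F^*) ⊗ F^* ⊗ ℚ`; see `Pool/Agent/Results/MP_9c6ec7_al/FiniteConstantFields.lean`.
The core lemmas are in `Pool/Agent/Y775/W3/` with contributions of helper953, helper684, helper261,
helper310, helper328, helper212, helper117, helper43.
The definitions are in `Pool/Agent/H39R2/GonP/Defs.lean` and `Pool/Agent/TH358/BG/Defs.lean`.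
-/

set_option autoImplicit false

namespace Pool.Agent.Results.MP_bae8ce_ag.OpenSubsetsFiniteFields

open GonP Pool.Agent.TH358.BG

theorem field_case (p : ℕ) [Fact p.Prime] (k : Type) [Field k] [Algebra (ZMod p) k]
    [Algebra.IsAlgebraic (ZMod p) k] :
    ∃ D : Differentials (RatFunc k), (∀ D' : Differentials (RatFunc k), D' = D) ∧
      (∀ j : ℕ, Function.Surjective (D.e j)) ∧
      (∀ j : ℕ, Function.Exact (D.d 0 j) (D.e (j + 1))) ∧
      Function.Injective (D.e 0) ∧ (∀ m : ℕ, Function.Injective (D.d m 0)) := by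
  have : CharP k p := charP_of_injective_algebraMap (algebraMap (ZMod p) k).injective p
  have hk := H39Gon.frob_fix k p
  obtain ⟨D⟩ := H39Gon.exists_differentials k p hk
  obtain ⟨s0, s1⟩ := Y775.W3.span_poly k p
  obtain ⟨h1, h2, h4, h5⟩ := Y775.W3.topTwo k p hk s0 s1 D
  refine ⟨ofD D, fun D' => unique (ofD D) D', fun j => ?_, fun j => ?_, ?_, fun m => ?_⟩
  · exact (eLQ (RatFunc k) (j + 2)).symm.surjective.comp
      ((h5 j).comp (eT (RatFunc k) 0 j).surjective)
  · exact exact_conj (eT (RatFunc k) 1 j) (eT (RatFunc k) 0 (j + 1)) (eLQ (RatFunc k) (j + 3)) _ _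
      (h4 j)
  · exact (eLQ (RatFunc k) 2).symm.injective.comp (h2.comp (eT (RatFunc k) 0 0).injective)
  · exact (eT (RatFunc k) m 1).symm.injective.comp
      ((h1 m).comp (eT (RatFunc k) (m + 1) 0).injective)

/-- Open subsets `X` of `P^1_k`, `k` an algebraic extension of `F_p`: `Γ(X,n) ⊗ ℚ` has no
cohomology in the degrees `1`, `n - 1`, `n` and `n + 1`, for all `n ≥ 2`. -/
theorem result (p : ℕ) [Fact p.Prime] (k : Type) [Field k] [Algebra (ZMod p) k]
    [Algebra.IsAlgebraic (ZMod p) k] :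
    Nonempty (Differentials (RatFunc k)) ∧
    -- `X` is a nonempty open subset of `P^1_k` with residue fields `κ x`
    ∀ (X : Type) (κ : X → Type) [∀ x, Field (κ x)] [∀ x, Algebra (ZMod p) (κ x)]
      [∀ x, Algebra.IsAlgebraic (ZMod p) (κ x)] (DF : Differentials (RatFunc k))
      (Dκ : ∀ x, Differentials (κ x)) (res : Res (RatFunc k) κ),
      -- degree `1`, all `n ≥ 2`
      (∀ m z, tot DF Dκ res (m + 1) 0 z = 0 → z = 0) ∧
      -- degrees `n` (`m = 0`) and `n - 1` (`m = 1`)
      (∀ m j z, m ≤ 1 → (tot DF Dκ res m (j + 1) z = 0 ↔ ∃ w, tot DF Dκ res (m + 1) j w = z)) ∧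
      -- degree `n + 1`
      ∀ j z, ∃ w, tot DF Dκ res 0 (j + 1) w = z := by
  obtain ⟨D, hu, hs, he, hi, hd⟩ := field_case p k
  refine ⟨⟨D⟩, fun X κ _ _ _ DF Dκ res => ?_⟩
  obtain rfl := hu DF
  have hG := generic p (RatFunc k) κ DF Dκ res
  have hfst : ∀ m j (z : XT (RatFunc k) κ (m + 1) j), (tot DF Dκ res m j z).1 = gd DF m j z.1 :=
    hG.1
  have hext : ∀ m j (z w : XT (RatFunc k) κ m j), z.1 = w.1 → z = w :=
    fun m j z w h => (hG.2 m j).1 h
  refine ⟨fun m z h => ?_, fun m j z hm => ?_, fun j z => ?_⟩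
  · apply hext
    have h1 : gd DF (m + 1) 0 z.1 = 0 := by
      rw [← hfst, h]
      rfl
    have h2 : gd DF (m + 1) 0 z.1 = gd DF (m + 1) 0 0 := by rw [h1, gd_zero]
    match m, z, h2 with
    | 0, z, h2 => exact hi h2
    | (m + 1), z, h2 => exact hd m h2
  · have hG : Function.Exact (gd DF (m + 1) j) (gd DF m (j + 1)) := by
      match m with
      | 0 =>
        intro y
        constructor
        · intro _
          exact hs j y
        · intro _
          rfl
      | 1 => exact he j
      | (m + 2) => omega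
    constructor
    · intro h
      have h1 : gd DF m (j + 1) z.1 = 0 := by
        rw [← hfst, h]
        rfl
      obtain ⟨a, ha⟩ := (hG z.1).1 h1
      refine ⟨(a, 0), hext _ _ _ _ ?_⟩
      rw [hfst]
      exact ha
    · rintro ⟨w, rfl⟩
      apply hext
      rw [hfst, hfst]
      exact (hG _).2 ⟨w.1, rfl⟩
  · exact ⟨0, hext _ _ _ _ rfl⟩

end Pool.Agent.Results.MP_bae8ce_ag.OpenSubsetsFiniteFields
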